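import Pool.Agent.H10.EDP.Conv

/-!
# MP_edfd2a_ag: the relative compactified Albanese of a Lagrangian fibration of a fourfold
-/

namespace Pool.Agent.Results.MP_edfd2a_ag.Fourfolds

open Pool.Agent.H10.Alb Pool.Agent.H10.EDP

/-- Let `pi : x → B` be a Lagrangian fibration with integral fibres of an irreducible hyper-Kaehler
variety of dimension four. Then `x` is deformation equivalent to its relative compactified Albanese,
and both are deformation equivalent to the Hilbert scheme `S^[2]` of a K3 surface `S`. If
`b_2(x) ≥ 9` or if the type `(1, d)` of the smooth fibres is good, only the facts collected in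
`Fourfolds` are used for the first assertion. -/
theorem result :
    (∀ (W : World) (x : W.X) (π : W.Fibration x),
      W.DefEq x (W.alb x π) ∧ ∃ y, W.DefEq x y ∧ W.K32 y) ∧
    ∀ (W : Fourfolds) (x : W.X) (π : W.Fibration x), 9 ≤ W.b2 x ∨ Good (W.d x π) →
      W.DefEq x (W.alb x π) := by
  refine ⟨fun W x π => ?_, fun W x π h => Pool.Agent.H10.Alb.main W x π h⟩
  obtain ⟨h, h'⟩ := Pool.Agent.H10.EDP.main W x π
  exact ⟨h', type_of_fibration W.toFourfolds x π h⟩

end Pool.Agent.Results.MP_edfd2a_ag.Fourfolds
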